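import Pool.Agent.Helper96.BT.Defs

/-!
# BT, piece M3: any four letters of each node can be moved by changes in the holes
-/

set_option autoImplicit false

namespace Pool.Agent.Helper76.BT

open Finset Pool.Agent.Helper19.NF Pool.Agent.Helper74.NW Pool.Agent.Helper96.BT
open Pool.Agent.Helper74.NE (fine fine_apply)
open Pool.Agent.Helper99.NQ (pos)

variable {n D m : ℕ} [NeZero m] {F B W : Type} [Field F] [AddCommGroup B] [AddCommGroup W]
  [Module F W] [Fintype W] [Fintype B] (enc : W →+ (Fin D × Fin m → B))

omit [Fintype B] in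
open Classical in
/-- The change of a letter by the changes in the holes. -/
theorem lam_flip (g : Fin D → Equiv.Perm (Fin n)) (h1 : Fin n → Fin D × Fin m) (A : Finset (Fin n)) (b : Fin n → W)
    (v : Fin n × Fin m) : lam enc g (flip (F := F) g h1 A b) v =
      ∑ c, ∑ u ∈ A, if pos g h1 u = fine g c v then enc (b u) c else 0 := by
  unfold lam
  refine Finset.sum_congr rfl fun c _ => ?_
  have h : cont (flip (F := F) g h1 A b (fine g c v)) = ∑ u ∈ A, if pos g h1 u = fine g c v then b u else 0 := by
    unfold cont Pool.Agent.Helper96.BT.flip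
    simp_rw [Finset.sum_smul]
    rw [Finset.sum_comm]
    refine Finset.sum_congr rfl fun u _ => ?_
    by_cases hu : pos g h1 u = fine g c v
    · simp [hu, ite_smul]
    · simp [hu]
  rw [h, map_sum, Finset.sum_apply]
  refine Finset.sum_congr rfl fun u _ => ?_
  split_ifs <;> simp

omit [Fintype B] in
open Classical in
/-- Any `4` letters of each node of `A` can be moved arbitrarily by changes in the holes. -/
theorem four (hE : Mds enc (4 * D)) (g : Fin D → Equiv.Perm (Fin n)) (h1 : Fin n → Fin D × Fin m)
    (A : Finset (Fin n)) (q : Fin n → Finset (Fin m)) (hq : ∀ u, (q u).card ≤ 4) (z : Fin n → Fin m → B) :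
    ∃ b : Fin n → W, ∀ u ∈ A, ∀ t ∈ q u, lam enc g (flip (F := F) g h1 A b) (u, t) = z u t := by
  -- the words at the positions
  have key : ∀ p : Fin n × Fin m, ∃ w : W, ∀ (s : Fin D) (t : Fin m), t ∈ q ((g s).symm p.1) →
      enc w (s, p.2 - t) =
        if p = pos g h1 ((g s).symm p.1) ∧ s = (h1 ((g s).symm p.1)).1 then z ((g s).symm p.1) t else 0 := by
    intro p
    obtain ⟨w, hw⟩ := hE (univ.biUnion fun s : Fin D => (q ((g s).symm p.1)).image fun t => (s, p.2 - t))
      (by
        refine Finset.card_biUnion_le.trans ?_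
        refine (Finset.sum_le_card_nsmul _ _ 4 fun s _ => Finset.card_image_le.trans (hq _)).trans ?_
        simp [mul_comm])
      (fun c => if p = pos g h1 ((g c.1).symm p.1) ∧ c.1 = (h1 ((g c.1).symm p.1)).1 then
        z ((g c.1).symm p.1) (p.2 - c.2) else 0)
    refine ⟨w, fun s t ht => ?_⟩
    have := hw (s, p.2 - t) (by
      simp only [Finset.mem_biUnion, Finset.mem_univ, true_and, Finset.mem_image]
      exact ⟨s, t, ht, rfl⟩)
    rw [this]
    simp
  choose w hw using key
  -- a node for each position
  let rep : Fin n → Prop := fun u => u ∈ A ∧ ∀ u' ∈ A, pos g h1 u' = pos g h1 u → u ≤ u'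
  have hrep : ∀ v ∈ A, ∃! u, u ∈ A ∧ pos g h1 u = pos g h1 v ∧ rep u := by
    intro v hv
    have hne : (A.filter fun u => pos g h1 u = pos g h1 v).Nonempty := ⟨v, by simp [hv]⟩
    refine ⟨(A.filter fun u => pos g h1 u = pos g h1 v).min' hne, ?_, ?_⟩
    · have hm := Finset.min'_mem _ hne
      rw [Finset.mem_filter] at hm
      refine ⟨hm.1, hm.2, hm.1, fun u' hu' he => Finset.min'_le _ _ ?_⟩
      rw [Finset.mem_filter]
      exact ⟨hu', he.trans hm.2⟩
    · rintro u ⟨hu, he, -, hmin⟩
      refine le_antisymm (hmin _ ?_ ?_) (Finset.min'_le _ _ (by simp [hu, he]))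
      · exact (Finset.mem_filter.mp (Finset.min'_mem _ hne)).1
      · rw [he]
        exact (Finset.mem_filter.mp (Finset.min'_mem _ hne)).2
  refine ⟨fun u => if rep u then w (pos g h1 u) else 0, fun v hv t ht => ?_⟩
  rw [lam_flip]
  -- only the own position counts
  have hterm : ∀ c : Fin D × Fin m, (∑ u ∈ A, if pos g h1 u = fine g c (v, t) then
      enc (if rep u then w (pos g h1 u) else 0) c else 0) =
      if c = ((h1 v).1, (h1 v).2 - t) then z v t else 0 := by
    rintro ⟨s, t'⟩
    have hc : fine g (s, t') (v, t) = (g s v, t + t') := rfl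
    by_cases hex : ∃ u0 ∈ A, pos g h1 u0 = fine g (s, t') (v, t)
    · obtain ⟨u0, hu0, hp0⟩ := hex
      obtain ⟨u1, ⟨hu1, hp1, hr1⟩, huniq⟩ := hrep u0 hu0
      have hp1' : pos g h1 u1 = fine g (s, t') (v, t) := hp1.trans hp0
      rw [Finset.sum_eq_single u1]
      · rw [if_pos hp1', if_pos hr1]
        have h2 := hw (pos g h1 u1) s t
        have e1 : (g s).symm (pos g h1 u1).1 = v := by
          rw [hp1', hc]
          simp
        have e2 : (pos g h1 u1).2 - t = t' := by
          rw [hp1', hc]
          simp
        rw [e1, e2] at h2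
        rw [h2 ht]
        congr 1
        rw [hp1', hc]
        apply propext
        constructor
        · rintro ⟨h3, h4⟩
          have h5 : (h1 v).2 = t + t' := by
            have := congrArg Prod.snd h3
            simpa [pos] using this.symm
          rw [Prod.mk.injEq]
          refine ⟨h4, ?_⟩
          rw [h5]
          simp
        · intro h3
          rw [Prod.mk.injEq] at h3
          obtain ⟨h4, h5⟩ := h3
          refine ⟨?_, h4⟩
          unfold pos
          rw [h5, h4]
          simp
      · intro u hu hne
        by_cases hpu : pos g h1 u = fine g (s, t') (v, t)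
        · rw [if_pos hpu, if_neg, map_zero]
          · rfl
          · intro hr
            exact hne (huniq u ⟨hu, hpu.trans hp0.symm, hr⟩)
        · rw [if_neg hpu]
      · intro h
        exact absurd hu1 h
    · push Not at hex
      rw [Finset.sum_eq_zero (fun u hu => if_neg (hex u hu)), if_neg]
      intro h3
      apply hex v hv
      rw [h3]
      unfold pos
      rw [fine_apply]
      simp
  rw [Finset.sum_congr rfl fun c _ => hterm c]
  simp

end Pool.Agent.Helper76.BT
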